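import Pool.Agent.Lib.ALL_h25.Setup
import Pool.Agent.Lib.ALL_h26.Sub
import Pool.Agent.Lib.ALL_h26.Comp
import Pool.Agent.Lib.ALL_h68.FrK
import Pool.Agent.Lib.ALLO.Defs

/-!
# From embedded local uniformization to the real case with any residue field
-/

set_option autoImplicit false

namespace Pool.Agent.ALLF

open Pool.Agent.TAO Pool.Agent.LU2 Pool.Agent.LU2G Pool.Agent.ALL68
open Pool.Agent.LU1 (FracIs)

universe u w

section Pull

variable {k K Ω : Type u} [Field k] [Field K] [Field Ω] [Algebra k K] [Algebra k Ω]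
  {𝕂 : Type w} [Field 𝕂] [LinearOrder 𝕂] [IsStrictOrderedRing 𝕂]
  {v : OVal 𝕂 K} {w : OVal 𝕂 Ω} {D : ℕ}

theorem FR.χ_zero (C : ALLO.FR k w D) : C.χ 0 = 1 := by
  have h := C.χ_add 0 C.Γ.zero_mem 0 C.Γ.zero_mem
  rw [add_zero] at h
  have h0 := C.χ_ne 0 C.Γ.zero_mem
  exact (mul_right_cancel₀ h0 (by rw [one_mul]; exact h)).symm

theorem FR.χ_neg (C : ALLO.FR k w D) {γ : 𝕂} (hγ : γ ∈ C.Γ) : C.χ (-γ) = (C.χ γ)⁻¹ := by
  have h := C.χ_add γ hγ (-γ) (C.Γ.neg_mem hγ)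
  rw [add_neg_cancel, FR.χ_zero] at h
  exact (inv_eq_of_mul_eq_one_right h.symm).symm

/-- The frame of the image of `K`, as a frame of `K`. -/
theorem exists_pull (ι : K →ₐ[k] Ω) (hw : ∀ f : K, f ≠ 0 → w (ι f) = v f)
    (C : ALLO.FR k w D) (hC : ∀ f ∈ C.R, ∃ g : K, ι g = f) {r : ℕ}
    (hrank : ∃ X : Fin r → 𝕂, LinearIndependent ℚ X ∧ (∀ i, X i ∈ C.Γ) ∧
      ∀ γ ∈ C.Γ, γ ∈ Submodule.span ℚ (Set.range X)) :
    ∃ C' : FRK k v r D, (∀ f, f ∈ C'.R ↔ ι f ∈ C.R) ∧ ∀ f, C.Mono (ι f) → C'.Mono f := by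
  classical
  have hinj : Function.Injective ι := ι.toRingHom.injective
  have hι0 : ∀ f : K, f ≠ 0 → ι f ≠ 0 := fun f hf h => hf (hinj (by rw [h, map_zero]))
  have hι0' : ∀ f : K, ι f ≠ 0 → f ≠ 0 := fun f hf h => hf (by rw [h, map_zero])
  have hχE : ∀ γ ∈ C.Γ, ∃ g : K, ι g = C.χ γ := by
    intro γ hγ
    rcases le_total 0 γ with h | h
    · exact hC _ (C.χ_mem γ hγ h)
    · obtain ⟨g, hg⟩ := hC _ (C.χ_mem (-γ) (C.Γ.neg_mem hγ) (by linarith))
      refine ⟨g⁻¹, ?_⟩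
      rw [map_inv₀, hg, FR.χ_neg C hγ, inv_inv]
  choose! χ' hχ' using hχE
  choose y' hy' using fun i => hC _ (C.y_mem i)
  have hge : ∀ {c : 𝕂} {f : K}, w.Ge c (ι f) → v.Ge c f := by
    intro c f h h0
    rw [← hw f h0]
    exact h (hι0 f h0)
  have hpos : ∀ {f : K}, VPos v f → VPos w (ι f) := by
    intro f h h0
    rw [hw f (hι0' f h0)]
    exact h (hι0' f h0)
  -- the finite set of generators
  obtain ⟨F, hF⟩ := C.fgen
  have hFR : ∀ f ∈ F, f ∈ C.R := by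
    intro f hf
    rw [hF]
    exact ⟨f, Algebra.subset_adjoin (Or.inl hf), 1, Subalgebra.one_mem _, one_ne_zero, w.map_one,
      by rw [div_one]⟩
  choose! φ hφ using fun f (hf : f ∈ F) => hC f (hFR f hf)
  have hmap : (Algebra.adjoin k (((F.image φ : Finset K) : Set K) ∪
      χ' '' {γ | γ ∈ C.Γ ∧ 0 ≤ γ})).map ι =
      Algebra.adjoin k ((F : Set Ω) ∪ C.χ '' {γ | γ ∈ C.Γ ∧ 0 ≤ γ}) := by
    rw [AlgHom.map_adjoin, Set.image_union]
    congr 2
    · rw [Finset.coe_image, Set.image_image]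
      ext x
      constructor
      · rintro ⟨f, hf, rfl⟩
        change ι (φ f) ∈ _
        rw [hφ f hf]
        exact hf
      · intro hx
        exact ⟨x, hx, hφ x hx⟩
    · rw [Set.image_image]
      exact Set.image_congr fun γ hγ => hχ' γ hγ.1
  refine ⟨
    { Γ := C.Γ
      fg := C.fg
      rank := hrank
      χ := χ'
      χ_ne := fun γ hγ => hι0' _ (by rw [hχ' γ hγ]; exact C.χ_ne γ hγ)
      χ_add := fun γ hγ δ hδ => hinj (by
        rw [map_mul, hχ' γ hγ, hχ' δ hδ, hχ' _ (C.Γ.add_mem hγ hδ), C.χ_add γ hγ δ hδ])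
      χ_val := fun γ hγ => by
        rw [← hw _ (hι0' _ (by rw [hχ' γ hγ]; exact C.χ_ne γ hγ)), hχ' γ hγ, C.χ_val γ hγ]
      y := y'
      y_ne := fun i => hι0' _ (by rw [hy']; exact C.y_ne i)
      y_pos := fun i => by
        rw [← hw _ (hι0' _ (by rw [hy']; exact C.y_ne i)), hy']
        exact C.y_pos i
      R := C.R.comap ι
      nonneg := fun f hf => hge (C.nonneg _ hf)
      loc := fun f hf hf0 hf1 => by
        change ι f⁻¹ ∈ C.R
        rw [map_inv₀]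
        exact C.loc _ hf (hι0 f hf0) (by rw [hw f hf0, hf1])
      χ_mem := fun γ hγ h => by
        change ι (χ' γ) ∈ C.R
        rw [hχ' γ hγ]
        exact C.χ_mem γ hγ h
      y_mem := fun i => by
        change ι (y' i) ∈ C.R
        rw [hy']
        exact C.y_mem i
      fgen := ⟨F.image φ, ?_, ?_⟩
      gen := ?_ }, fun f => Iff.rfl, ?_⟩
  · intro f hf
    obtain ⟨g, hg, rfl⟩ := Finset.mem_image.1 hf
    change ι (φ g) ∈ C.R
    rw [hφ g hg]
    exact hFR g hg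
  · intro f hf
    have hf' : ι f ∈ C.R := hf
    rw [hF] at hf'
    obtain ⟨a, ha, b, hb, hb0, hb1, hab⟩ := hf'
    rw [← hmap] at ha hb
    obtain ⟨a', ha', rfl⟩ := ha
    obtain ⟨b', hb', rfl⟩ := hb
    have hb0' : b' ≠ 0 := hι0' _ hb0
    refine ⟨a', ha', b', hb', hb0', ?_, hinj ?_⟩
    · rw [← hw b' hb0']
      exact hb1
    · rw [map_div₀]
      exact hab
  · intro f hf hfp
    obtain ⟨γ, hγ, hγ0, a, ha, b, hb, hab⟩ := C.gen _ hf (hpos hfp)
    obtain ⟨a', rfl⟩ := hC a ha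
    choose b' hb' using fun i => hC _ (hb i)
    refine ⟨γ, hγ, hγ0, a', ha, b', fun i => ?_, hinj ?_⟩
    · change ι (b' i) ∈ C.R
      rw [hb']
      exact hb i
    · rw [map_add, map_mul, map_sum, hχ' γ hγ]
      refine Eq.trans hab ?_
      congr 1
      exact Finset.sum_congr rfl fun i _ => by rw [map_mul, hy', hb']
  · rintro f ⟨h0, hΓ, hR, -, -⟩
    have hf0 := hι0' f h0
    rw [hw f hf0] at hΓ hR
    refine ⟨hf0, hΓ, ?_⟩
    change ι (f / χ' (v f)) ∈ C.R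
    rw [map_div₀, hχ' _ hΓ]
    exact hR

end Pull

/-- The ranks of the groups of exponents. -/
theorem exists_rankΓ {k Ω : Type u} [Field k] [Field Ω] [Algebra k Ω] {𝕂 : Type w} [Field 𝕂]
    [LinearOrder 𝕂] [IsStrictOrderedRing 𝕂] {w : OVal 𝕂 Ω} {n r D : ℕ} (h : CtxR k w n r)
    (C : ALLO.FR k w D) :
    ∃ X : Fin r → 𝕂, LinearIndependent ℚ X ∧ (∀ i, X i ∈ C.Γ) ∧
      ∀ γ ∈ C.Γ, γ ∈ Submodule.span ℚ (Set.range X) := by
  obtain ⟨x, hx0, hind, hspan⟩ := h.rank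
  choose m hm hmΓ using fun i => C.full (x i) (hx0 i)
  have hm0 : ∀ i, ((m i : ℕ) : ℚ) ≠ 0 := fun i => by exact_mod_cast (hm i).ne'
  have hsm : ∀ i, ((m i : ℕ) : 𝕂) * w (x i) = ((m i : ℕ) : ℚ) • w (x i) := fun i => by
    rw [Rat.smul_def]
    push_cast
    rfl
  refine ⟨fun i => (m i : 𝕂) * w (x i), ?_, hmΓ, fun γ hγ => ?_⟩
  · simp only [hsm]
    exact hind.units_smul fun i => Units.mk0 _ (hm0 i)
  · have h1 := hspan (C.χ γ) (C.χ_ne γ hγ)
    rw [C.χ_val γ hγ] at h1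
    refine (Submodule.span_le.2 ?_) h1
    rintro _ ⟨i, rfl⟩
    have h2 : w (x i) = ((m i : ℕ) : ℚ)⁻¹ • ((m i : 𝕂) * w (x i)) := by
      rw [hsm, smul_smul, inv_mul_cancel₀ (hm0 i), one_smul]
    change w (x i) ∈ Submodule.span ℚ _
    rw [h2]
    exact Submodule.smul_mem _ _ (Submodule.subset_span ⟨i, rfl⟩)

theorem mono_div {k K : Type u} [Field k] [Field K] [Algebra k K] {𝕂 : Type w} [Field 𝕂]
    [LinearOrder 𝕂] [IsStrictOrderedRing 𝕂] {v : OVal 𝕂 K} {r D : ℕ} {C : FRK k v r D} {a b : K}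
    (ha : C.Mono a) (hb : C.Mono b) : C.Mono (a / b) := by
  obtain ⟨ha0, haΓ, haR⟩ := ha
  obtain ⟨hb0, hbΓ, hbR⟩ := hb
  have hχb := C.χ_ne _ hbΓ
  have hvab : v (a / b) = v a + -v b := by rw [v.map_div ha0 hb0]; ring
  refine ⟨div_ne_zero ha0 hb0, by rw [hvab]; exact C.Γ.add_mem haΓ (C.Γ.neg_mem hbΓ), ?_⟩
  rw [hvab, C.χ_add _ haΓ _ (C.Γ.neg_mem hbΓ), C.χ_neg hbΓ]
  have h1 : (b / C.χ (v b))⁻¹ ∈ C.R := by
    refine C.loc _ hbR (div_ne_zero hb0 hχb) ?_
    rw [v.map_div hb0 hχb, C.χ_val _ hbΓ, sub_self]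
  have h2 : a / b / (C.χ (v a) * (C.χ (v b))⁻¹) = a / C.χ (v a) * (b / C.χ (v b))⁻¹ := by
    have hχa := C.χ_ne _ haΓ
    field_simp
  rw [h2]
  exact C.R.mul_mem haR h1

/-- Embedded local uniformization of the zero-dimensional valuations with values in ordered fields
gives log uniformization of all real valuations, with any residue field. -/
theorem realCaseFull_of {b : ℕ → ℕ} {p : ℕ} {k : Type u} [Field k] [IsAlgClosed k]
    (H : ∀ (𝕂 : Type u) [Field 𝕂] [LinearOrder 𝕂] [IsStrictOrderedRing 𝕂] (n : ℕ), b n < p →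
      ALLO.EmbAll k 𝕂 n) : RealCaseFull b p k := by
  classical
  intro K _ _ hK V hk hV m hm hp A hfg hA hfrac T hT
  obtain ⟨W, hWV, hAW, hres⟩ := exists_zeroDim_sub V A hfg hA
  have hkW : ∀ c : k, algebraMap k K c ∈ W := fun c => hAW _ (A.algebraMap_mem c)
  have hWtop : W ≠ ⊤ := by
    rintro rfl
    exact hV.1 (top_le_iff.1 hWV)
  obtain ⟨𝕂, i1, i2, i3, v, w, r, hr, hrm, hw, hv, hctx⟩ := exists_ctx hm W hkW hres hWtop
  obtain ⟨D, hD⟩ := Nat.exists_eq_add_of_le hrm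
  let Ω : Type u := AlgebraicClosure K
  let ι : K →ₐ[k] Ω := IsScalarTower.toAlgHom k K Ω
  let E : IntermediateField k Ω := ι.fieldRange
  have halg : ∀ g : Ω, IsAlgebraic E g := by
    intro g
    obtain ⟨P, hP0, hP⟩ := (Algebra.IsAlgebraic.isAlgebraic g : IsAlgebraic K g)
    let j : K →+* E := (ι.rangeRestrict : K →ₐ[k] ι.range).toRingHom
    refine ⟨P.map j, ?_, ?_⟩
    · exact (Polynomial.map_ne_zero_iff j.injective).2 hP0
    · rw [Polynomial.aeval_def, Polynomial.eval₂_map]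
      exact hP
  -- the finite set
  obtain ⟨S, hS⟩ := id hfg
  choose! tn htn td htd htd0 htq using fun t (_ : t ∈ T) => hfrac t
  obtain ⟨Z, hZ⟩ : ∃ Z : Finset K, Z = (S ∪ T.image tn ∪ T.image td).filter (· ≠ 0) := ⟨_, rfl⟩
  have hZA : ∀ z ∈ Z, z ∈ A := by
    intro z hz
    rw [hZ, Finset.mem_filter, Finset.mem_union, Finset.mem_union] at hz
    rcases hz.1 with (h | h) | h
    · rw [← hS]
      exact Algebra.subset_adjoin h
    · obtain ⟨t, ht, rfl⟩ := Finset.mem_image.1 h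
      exact htn t ht
    · obtain ⟨t, ht, rfl⟩ := Finset.mem_image.1 h
      exact htd t ht
  have hZadj : Algebra.adjoin k (Z : Set K) = A := by
    apply le_antisymm (Algebra.adjoin_le hZA)
    rw [← hS]
    refine Algebra.adjoin_le fun s hs => ?_
    by_cases h0 : s = 0
    · rw [h0]
      exact Subalgebra.zero_mem _
    · refine Algebra.subset_adjoin ?_
      rw [hZ]
      exact Finset.mem_coe.2 (Finset.mem_filter.2 ⟨Finset.mem_union_left _
        (Finset.mem_union_left _ hs), h0⟩)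
  have hinj : Function.Injective ι := ι.toRingHom.injective
  have hZ0 : ∀ z ∈ Z.image ι, z ≠ 0 := by
    intro z hz
    obtain ⟨y, hy, rfl⟩ := Finset.mem_image.1 hz
    rw [hZ, Finset.mem_filter] at hy
    exact fun h => hy.2 (hinj (by rw [h, map_zero]))
  have hZK : IntermediateField.adjoin k (Z : Set K) = ⊤ := by
    rw [eq_top_iff]
    intro f _
    obtain ⟨a, ha, c, hc, hc0, rfl⟩ := hfrac f
    have hle : A ≤ (IntermediateField.adjoin k (Z : Set K)).toSubalgebra := by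
      rw [← hZadj]
      exact IntermediateField.algebra_adjoin_le_adjoin k _
    exact div_mem (hle ha) (hle hc)
  have hZE : IntermediateField.adjoin k ((Z.image ι : Finset Ω) : Set Ω) = E := by
    rw [Finset.coe_image, ← IntermediateField.adjoin_map, hZK]
    exact (AlgHom.fieldRange_eq_map ι).symm
  obtain ⟨C, hCE, hCZ, hCden⟩ := H 𝕂 m hp Ω w r D hctx hr hD E ⟨Z.image ι, hZE.symm⟩ halg
    (Z.image ι) hZ0 hZE
  have hmapA : Algebra.adjoin k ((Z.image ι : Finset Ω) : Set Ω) = A.map ι := by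
    rw [Finset.coe_image, ← AlgHom.map_adjoin, hZadj]
  obtain ⟨C', hCR, hCM⟩ := exists_pull ι (fun f hf => hw f hf) C (fun f hf => by
    obtain ⟨g, hg⟩ := hCE.1 f hf
    exact ⟨g, hg⟩) (exists_rankΓ hctx C)
  have hMZ : ∀ z ∈ Z, C'.Mono z := fun z hz => hCM z (hCZ _ (Finset.mem_image_of_mem _ hz))
  have hAR : A ≤ C'.R := by
    rw [← hZadj]
    refine Algebra.adjoin_le fun z hz => ?_
    obtain ⟨hz0, hzΓ, hzR⟩ := hMZ z hz
    have h1 : 0 ≤ v z := (hv z hz0).1 (hAW z (hZA z hz))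
    have h2 : z = C'.χ (v z) * (z / C'.χ (v z)) := (mul_div_cancel₀ _ (C'.χ_ne _ hzΓ)).symm
    rw [h2]
    exact C'.R.mul_mem (C'.χ_mem _ hzΓ h1) hzR
  have hlu : LUrAt V A T := by
    refine lurAt_of_frame hWV hV hkW hres hv (by rw [hm, hD]) C' hfg hfrac hAR ?_ T ?_
    · intro f hf
      obtain ⟨a, ha, c, hc, hcM, hac⟩ := hCden (ι f) ((hCR f).1 hf)
      rw [hmapA] at ha hc
      obtain ⟨a', ha', rfl⟩ := ha
      obtain ⟨c', hc', rfl⟩ := hc
      refine ⟨a', ha', c', hc', hCM _ hcM, hinj ?_⟩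
      rw [map_div₀]
      exact hac
    · intro t ht
      have htd0' : td t ≠ 0 := htd0 t ht
      have htn0 : tn t ≠ 0 := by
        intro h
        apply hT t ht
        rw [htq t ht, h, zero_div]
      rw [htq t ht]
      refine mono_div (hMZ _ ?_) (hMZ _ ?_)
      · rw [hZ]
        exact Finset.mem_filter.2 ⟨Finset.mem_union_left _ (Finset.mem_union_right _
          (Finset.mem_image_of_mem _ ht)), htn0⟩
      · rw [hZ]
        exact Finset.mem_filter.2 ⟨Finset.mem_union_right _ (Finset.mem_image_of_mem _ ht), htd0'⟩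
  exact hlu

end Pool.Agent.ALLF
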