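import Pool.Agent.Lib.ALL_h25.CoarseA
import Pool.Agent.Lib.LU2G.SmoothA
import Pool.Agent.Lib.LU2G.SmoothB

/-!
# Localization of regular parameters at the centre of a coarser valuation ring
-/

set_option autoImplicit false

namespace Pool.Agent.ALLF

open IsLocalRing Pool.Agent.LU2 Pool.Agent.LU2G Pool.Agent.LU1

section Alg

variable {k S : Type*} [Field k] [CommRing S] [IsDomain S] [Algebra k S]
  [Algebra.FiniteType k S] (q : Ideal S) [q.IsPrime] {n d : ℕ} (z : Fin n → S) (t : Fin d → S)
  (hzq : ∀ i, z i ∈ q)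
  (hgen : ∀ s ∈ q, ∃ t, t ∉ q ∧ t * s ∈ Ideal.span (Set.range z))
  (hsep : ∀ s : S, ∃ F : Polynomial (MvPolynomial (Fin d) k),
    F.eval₂ (MvPolynomial.aeval t : MvPolynomial (Fin d) k →ₐ[k] S).toRingHom s ∈ q ∧
    (Polynomial.derivative F).eval₂
      (MvPolynomial.aeval t : MvPolynomial (Fin d) k →ₐ[k] S).toRingHom s ∉ q)
include hzq hgen hsep

/-- Regular parameters give an étale neighbourhood. -/
theorem exists_etale_away (hz : AlgebraicIndependent k (Sum.elim z t)) :
    ∃ h : S, h ∉ q ∧ ∃ _ : Algebra (MvPolynomial (Fin n ⊕ Fin d) k) S,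
      (∀ P, algebraMap (MvPolynomial (Fin n ⊕ Fin d) k) S P = MvPolynomial.aeval (Sum.elim z t) P) ∧
      Algebra.Etale (MvPolynomial (Fin n ⊕ Fin d) k) (Localization.Away (h : S)) := by
  let _ : Algebra (MvPolynomial (Fin n ⊕ Fin d) k) S := (MvPolynomial.aeval (Sum.elim z t)).toAlgebra
  have hsc : IsScalarTower k (MvPolynomial (Fin n ⊕ Fin d) k) S :=
    IsScalarTower.of_algebraMap_eq fun c => ((MvPolynomial.aeval (Sum.elim z t)).commutes c).symm
  have hX : ∀ i, algebraMap (MvPolynomial (Fin n ⊕ Fin d) k) S (MvPolynomial.X i) =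
      Sum.elim z t i := fun i => MvPolynomial.aeval_X _ i
  have hunr : Algebra.IsUnramifiedAt (MvPolynomial (Fin n ⊕ Fin d) k) q :=
    unramifiedAt' q z t hzq hgen hsep (MvPolynomial (Fin n ⊕ Fin d) k)
      (fun i => ⟨_, hX (Sum.inl i)⟩) (fun j => ⟨_, hX (Sum.inr j)⟩)
  have hft : Algebra.FiniteType (MvPolynomial (Fin n ⊕ Fin d) k) S :=
    .of_restrictScalars_finiteType k _ S
  obtain ⟨f, hfq, P, φ, hφ⟩ :=
    Algebra.IsUnramifiedAt.exists_hasStandardEtaleSurjectionOn
      (R := MvPolynomial (Fin n ⊕ Fin d) k) q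
  have hf0 : f ≠ 0 := by
    rintro rfl
    exact hfq q.zero_mem
  have hle : Submonoid.powers f ≤ nonZeroDivisors S :=
    powers_le_nonZeroDivisors_of_noZeroDivisors hf0
  have hdom : IsDomain (Localization.Away f) := IsLocalization.isDomain_localization hle
  have hinj : Function.Injective
      (algebraMap (MvPolynomial (Fin n ⊕ Fin d) k) (Localization.Away f)) := by
    rw [IsScalarTower.algebraMap_eq (MvPolynomial (Fin n ⊕ Fin d) k) S (Localization.Away f),
      RingHom.coe_comp]
    exact (IsLocalization.injective (Localization.Away f) hle).comp hz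
  have htf : Module.IsTorsionFree (MvPolynomial (Fin n ⊕ Fin d) k) (Localization.Away f) :=
    Module.isTorsionFree_iff_algebraMap_injective.mpr hinj
  have hse := isStandardEtale_of_domain P φ hφ
  exact ⟨f, hfq, inferInstance, fun P => rfl, inferInstance⟩

end Alg

section Transfer

/-- Regular parameters of the localization of a regular ring give regular parameters of the
localizations of étale algebras. -/
theorem etale_params (R T : Type*) [CommRing R] [IsDomain R] [IsNoetherianRing R] [CommRing T]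
    [IsDomain T] [Algebra R T] [Algebra.Etale R T] (Q : Ideal T) [Q.IsPrime] {m : ℕ}
    (w : Fin m → R) (hw : ∀ s ∈ Q.under R, ∃ t, t ∉ Q.under R ∧ t * s ∈ Ideal.span (Set.range w))
    (hwQ : ∀ l, w l ∈ Q.under R) (hht : (Q.under R).height = m) :
    (∀ s ∈ Q, ∃ t, t ∉ Q ∧ t * s ∈ Ideal.span (Set.range fun l => algebraMap R T (w l))) ∧
      Q.height = m := by
  have hT : IsNoetherianRing T := Algebra.FiniteType.isNoetherianRing R T
  obtain ⟨q, hq⟩ : ∃ q : Ideal R, q = Q.under R := ⟨_, rfl⟩
  rw [← hq] at hw hwQ hht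
  have : Q.LiesOver q := ⟨hq⟩
  have hqp : q.IsPrime := by rw [hq]; infer_instance
  have hun : Algebra.IsUnramifiedAt R Q := inferInstance
  let _ := Localization.AtPrime.algebraOfLiesOver q Q
  have hmap := (Algebra.isUnramifiedAt_iff_map_eq R q Q).1 hun |>.2
  have hmax : maximalIdeal (Localization.AtPrime Q) =
      Ideal.map (algebraMap T (Localization.AtPrime Q))
        (Ideal.span (Set.range fun l => algebraMap R T (w l))) := by
    apply le_antisymm
    · rw [← hmap, Ideal.map_le_iff_le_comap]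
      intro s hs
      obtain ⟨t, ht, hts⟩ := hw s hs
      have h1 : IsUnit (algebraMap R (Localization.AtPrime Q) t) := by
        rw [IsScalarTower.algebraMap_apply R T (Localization.AtPrime Q)]
        refine IsLocalization.map_units (Localization.AtPrime Q) (⟨algebraMap R T t, ?_⟩ :
          Q.primeCompl)
        intro h
        exact ht (hq ▸ h)
      have h2 : algebraMap R (Localization.AtPrime Q) (t * s) ∈
          Ideal.map (algebraMap T (Localization.AtPrime Q))
            (Ideal.span (Set.range fun l => algebraMap R T (w l))) := by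
        rw [IsScalarTower.algebraMap_apply R T (Localization.AtPrime Q)]
        apply Ideal.mem_map_of_mem
        have h3 := Ideal.mem_map_of_mem (algebraMap R T) hts
        rw [Ideal.map_span] at h3
        refine Ideal.span_mono ?_ h3
        rintro _ ⟨_, ⟨l, rfl⟩, rfl⟩
        exact ⟨l, rfl⟩
      rw [map_mul] at h2
      exact (Ideal.unit_mul_mem_iff_mem _ h1).1 h2
    · rw [Ideal.map_span, Ideal.span_le]
      rintro _ ⟨_, ⟨l, rfl⟩, rfl⟩
      refine (IsLocalization.AtPrime.to_map_mem_maximal_iff (Localization.AtPrime Q) Q _).2 ?_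
      have := hwQ l
      rw [hq] at this
      exact this
  have hinj : Function.Injective (algebraMap T (Localization.AtPrime Q)) :=
    IsLocalization.injective (Localization.AtPrime Q) Q.primeCompl_le_nonZeroDivisors
  refine ⟨fun s hs => ?_, ?_⟩
  · have h1 : algebraMap T (Localization.AtPrime Q) s ∈
        Ideal.map (algebraMap T (Localization.AtPrime Q))
        (Ideal.span (Set.range fun l => algebraMap R T (w l))) := by
      rw [← hmax]
      exact (IsLocalization.AtPrime.to_map_mem_maximal_iff (Localization.AtPrime Q) Q _).2 hs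
    obtain ⟨⟨y, t⟩, hyt⟩ := (IsLocalization.mem_map_algebraMap_iff Q.primeCompl _).1 h1
    rw [← map_mul] at hyt
    refine ⟨t, t.2, ?_⟩
    rw [mul_comm]
    change s * (t : T) ∈ _
    rw [hinj hyt]
    exact y.2
  · apply le_antisymm
    · have h1 := ringKrullDim_le_spanFinrank_maximalIdeal (Localization.AtPrime Q)
      rw [IsLocalization.AtPrime.ringKrullDim_eq_height Q, hmax, Ideal.map_span] at h1
      have h2 : (Ideal.span ((algebraMap T (Localization.AtPrime Q)) ''
          (Set.range fun l => algebraMap R T (w l)))).spanFinrank ≤ m := by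
        refine (Submodule.spanFinrank_span_le_ncard_of_finite
          ((Set.finite_range _).image _)).trans ?_
        refine (Set.ncard_image_le (Set.finite_range _)).trans ?_
        rw [← Set.image_univ]
        refine (Set.ncard_image_le Set.finite_univ).trans ?_
        rw [Set.ncard_univ, Nat.card_fin]
      have h3 : ((Q.height : ℕ∞) : WithBot ℕ∞) ≤ ((m : ℕ∞) : WithBot ℕ∞) :=
        h1.trans (by exact_mod_cast h2)
      exact_mod_cast h3
    · rw [Ideal.height_eq_height_add_of_liesOver_of_hasGoingDown q Q, hht]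
      exact le_self_add

end Transfer

section Main

universe u

variable {k K : Type u} [Field k] [Field K] [Algebra k K]

/-- Inverting one element of a subalgebra of a field. -/
theorem etale_adjoin_invV (S B : Subalgebra k K) (h : S) (h0 : (h : K) ≠ 0)
    (hB : B = Algebra.adjoin k ((S : Set K) ∪ {(h : K)⁻¹})) (hle : S ≤ B)
    (R₀ : Type*) [CommRing R₀] [Algebra R₀ S] (hs : Algebra.Etale R₀ (Localization.Away h)) :
    @Algebra.Etale R₀ B _ _ (((Subalgebra.inclusion hle).toRingHom.comp
      (algebraMap R₀ S)).toAlgebra) := by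
  have hinv : (h : K)⁻¹ ∈ B := hB ▸ Algebra.subset_adjoin (Or.inr rfl)
  let _ : Algebra S B := (Subalgebra.inclusion hle).toRingHom.toAlgebra
  have hcoe : ∀ s : S, ((algebraMap S B s : B) : K) = s := fun s => rfl
  let _ : Algebra R₀ B := ((Subalgebra.inclusion hle).toRingHom.comp
      (algebraMap R₀ S)).toAlgebra
  have hsc : IsScalarTower R₀ S B := IsScalarTower.of_algebraMap_eq fun c => rfl
  have hloc : IsLocalization.Away h B := by
    refine ⟨⟨?_, ?_, ?_⟩⟩
    · rintro ⟨y, n, rfl⟩
      have h1 : IsUnit (algebraMap S B h) := by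
        refine IsUnit.of_mul_eq_one ⟨(h : K)⁻¹, hinv⟩ ?_
        apply Subtype.ext
        change (h : K) * (h : K)⁻¹ = 1
        exact mul_inv_cancel₀ h0
      change IsUnit (algebraMap S B (h ^ n))
      rw [map_pow]
      exact h1.pow n
    · rintro ⟨z, hz⟩
      obtain ⟨n, hn⟩ := mem_adjoin_inv S h.2 h0 z (hB ▸ hz)
      refine ⟨(⟨_, hn⟩, ⟨h ^ n, n, rfl⟩), ?_⟩
      apply Subtype.ext
      change z * ((h ^ n : S) : K) = z * (h : K) ^ n
      push_cast
      rfl
    · intro x y hxy
      refine ⟨1, ?_⟩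
      have : (x : K) = y := congrArg (fun b : B => (b : K)) hxy
      rw [Subtype.ext this]
  have e : Localization.Away h ≃ₐ[R₀] B :=
    (IsLocalization.algEquiv (Submonoid.powers h) (Localization.Away h) B).restrictScalars R₀
  exact Algebra.Etale.of_equiv e

/-- The case where the parameters are in the ring. -/
theorem isPar_coarse_aux {V' V : ValuationSubring K} (hle : V' ≤ V) (S : Subalgebra k K)
    (hfg : S.FG) (hS : ∀ f ∈ S, f ∈ V')
    (hres : ∀ f ∈ V', ∃ c : k, V'.valuation (f - algebraMap k K c) < 1)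
    {n : ℕ} {z : Fin n → K} (hz : IsPar V' (locV V' S) z) (hzS : ∀ i, z i ∈ S)
    (J : Finset (Fin n)) (hJ : ∀ i ∈ J, V.valuation (z i) < 1) :
    ∃ (m : ℕ) (w : Fin m → K) (f : J → Fin m), Function.Injective f ∧
      (∀ i : J, w (f i) = z i) ∧ IsPar V (locV V S) w := by
  have hp := PI_prime V' S hS
  have hfin : Algebra.FiniteType k S := (Subalgebra.fg_iff_finiteType S).1 hfg
  let z' : Fin n → S := fun i => ⟨z i, hzS i⟩
  have hzq : ∀ i, z' i ∈ PI V' S hS := fun i => hz.pos i
  have hgen : ∀ s ∈ PI V' S hS, ∃ u, u ∉ PI V' S hS ∧ u * s ∈ Ideal.span (Set.range z') := by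
    intro s hs
    obtain ⟨a, ha, hsum⟩ := hz.gen s (le_locV S s.2) hs
    obtain ⟨u, huS, hu1, hua⟩ := exists_commonV V' S a ha
    refine ⟨⟨u, huS⟩, ?_, ?_⟩
    · intro h
      have h' : V'.valuation u < 1 := h
      rw [hu1] at h'
      exact lt_irrefl _ h'
    · have h1 : (⟨u, huS⟩ : S) * s = ∑ i, (⟨u * a i, hua i⟩ : S) * z' i := by
        apply Subtype.ext
        rw [AddSubmonoidClass.coe_finsetSum]
        change u * (s : K) = ∑ i, u * a i * z i
        rw [hsum, Finset.mul_sum]
        exact Finset.sum_congr rfl fun i _ => by ring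
      rw [h1]
      exact Ideal.sum_mem _ fun i _ => Ideal.mul_mem_left _ _ (Ideal.subset_span ⟨i, rfl⟩)
  have hheight : (n : ℕ∞) ≤ (PI V' S hS).height := by
    let _ : Algebra S (locV V' S) := (Subalgebra.inclusion (le_locV (V := V') S)).toAlgebra
    have hl : IsLocalization.AtPrime (locV V' S) (PI V' S hS) :=
      isLocalization_locV V' S _ hS (le_locV S) rfl
    have h1 := IsLocalization.AtPrime.ringKrullDim_eq_height (PI V' S hS) (locV V' S)
    rw [hz.dim] at h1
    exact_mod_cast h1.le
  let t : Fin 0 → S := Fin.elim0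
  have hindq : AlgebraicIndependent k fun j => Ideal.Quotient.mk (PI V' S hS) (t j) := by
    have : Nontrivial (S ⧸ PI V' S hS) := Ideal.Quotient.nontrivial_iff.2 hp.ne_top
    exact algebraicIndependent_empty_type
  have htr := le_trdeg (PI V' S hS) hheight t hindq
  have hsep : ∀ s : S, ∃ F : Polynomial (MvPolynomial (Fin 0) k),
      F.eval₂ (MvPolynomial.aeval t : MvPolynomial (Fin 0) k →ₐ[k] S).toRingHom s ∈ PI V' S hS ∧
      (Polynomial.derivative F).eval₂
        (MvPolynomial.aeval t : MvPolynomial (Fin 0) k →ₐ[k] S).toRingHom s ∉ PI V' S hS := by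
    intro s
    obtain ⟨c, hc⟩ := hres (s : K) (hS s s.2)
    refine ⟨Polynomial.X - Polynomial.C (MvPolynomial.C c), ?_, ?_⟩
    · rw [Polynomial.eval₂_sub, Polynomial.eval₂_X, Polynomial.eval₂_C]
      have h1 : (MvPolynomial.aeval t : MvPolynomial (Fin 0) k →ₐ[k] S).toRingHom
          (MvPolynomial.C c) = algebraMap k S c := MvPolynomial.aeval_C _ _
      rw [h1]
      exact hc
    · rw [Polynomial.derivative_sub, Polynomial.derivative_X, Polynomial.derivative_C, sub_zero,
        Polynomial.eval₂_one]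
      exact fun h => hp.ne_top ((Ideal.eq_top_iff_one _).2 h)
  have hai := algebraicIndependent_of_trdeg' (PI V' S hS) z' t hzq hgen hsep htr
  obtain ⟨h, hq, halg, halgmap, het⟩ := exists_etale_away (PI V' S hS) z' t hzq hgen hsep hai
  have h1 : V'.valuation (h : K) = 1 := (mem_primeCompl h).1 hq
  have h0 : (h : K) ≠ 0 := by
    intro h'
    rw [h', map_zero] at h1
    exact zero_ne_one h1
  -- the étale neighbourhood
  obtain ⟨B, hB⟩ : ∃ B : Subalgebra k K, B = Algebra.adjoin k ((S : Set K) ∪ {(h : K)⁻¹}) :=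
    ⟨_, rfl⟩
  have hSB : S ≤ B := fun x hx => hB ▸ Algebra.subset_adjoin (Or.inl hx)
  have hinv : (h : K)⁻¹ ∈ B := hB ▸ Algebra.subset_adjoin (Or.inr rfl)
  have hetB := etale_adjoin_invV S B h h0 hB hSB (MvPolynomial (Fin n ⊕ Fin 0) k) het
  let _ : Algebra (MvPolynomial (Fin n ⊕ Fin 0) k) B :=
    ((Subalgebra.inclusion hSB).toRingHom.comp
      (algebraMap (MvPolynomial (Fin n ⊕ Fin 0) k) S)).toAlgebra
  have hmapB : ∀ i, ((algebraMap (MvPolynomial (Fin n ⊕ Fin 0) k) B
      (MvPolynomial.X (Sum.inl i)) : B) : K) = z i := by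
    intro i
    change ((algebraMap (MvPolynomial (Fin n ⊕ Fin 0) k) S
      (MvPolynomial.X (Sum.inl i)) : S) : K) = z i
    rw [halgmap, MvPolynomial.aeval_X]
    rfl
  have hVh : V.valuation (h : K) = 1 := val_eq_one_of_le hle h1
  have hBle : B ≤ locV V S := by
    rw [hB]
    refine Algebra.adjoin_le ?_
    rintro x (hx | hx)
    · exact le_locV _ hx
    · rw [Set.mem_singleton_iff.1 hx]
      exact locV_inv (le_locV _ h.2) hVh
  have hSV : ∀ f ∈ S, f ∈ V := fun f hf => hle (hS f hf)
  have hBV : ∀ f ∈ B, f ∈ V := fun f hf => locV_mem hSV f (hBle hf)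
  have heq : locV V B = locV V S :=
    le_antisymm (locV_le hBle fun _ hf h1 => locV_inv hf h1) (locV_mono hSB)
  have hprime := PI_prime V B hBV
  have hpp : ((PI V B hBV).under (MvPolynomial (Fin n ⊕ Fin 0) k)).IsPrime := inferInstance
  obtain ⟨m, w, f, hf, hwf, hwp, hw0, hwgen, hht⟩ := poly_params
    ((PI V B hBV).under (MvPolynomial (Fin n ⊕ Fin 0) k)) (fun i : J => (Sum.inl (i : Fin n)))
    (fun i j hij => Subtype.ext (Sum.inl_injective hij)) (fun i => by
      change V.valuation ((algebraMap (MvPolynomial (Fin n ⊕ Fin 0) k) B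
        (MvPolynomial.X (Sum.inl (i : Fin n))) : B) : K) < 1
      rw [hmapB]
      exact hJ _ i.2)
  obtain ⟨hgenB, hhtB⟩ := etale_params (MvPolynomial (Fin n ⊕ Fin 0) k) B (PI V B hBV) w
    hwgen hwp hht
  let _ : Algebra B (locV V S) := (Subalgebra.inclusion hBle).toAlgebra
  have hl : IsLocalization.AtPrime (locV V S) (PI V B hBV) :=
    isLocalization_locV V B (locV V S) hBV hBle heq
  have hinj0 : Function.Injective (algebraMap (MvPolynomial (Fin n ⊕ Fin 0) k) B) := by
    intro P P' hPP
    have h2 : algebraMap (MvPolynomial (Fin n ⊕ Fin 0) k) S P =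
        algebraMap (MvPolynomial (Fin n ⊕ Fin 0) k) S P' :=
      Subalgebra.inclusion_injective hSB hPP
    rw [halgmap, halgmap] at h2
    exact hai h2
  refine ⟨m, fun l => ((algebraMap (MvPolynomial (Fin n ⊕ Fin 0) k) B (w l) : B) : K), f, hf,
    fun i => ?_, ?_, ?_, ?_, ?_, ?_⟩
  · change ((algebraMap (MvPolynomial (Fin n ⊕ Fin 0) k) B (w (f i)) : B) : K) = _
    rw [hwf, hmapB]
  · intro l
    exact hBle (algebraMap (MvPolynomial (Fin n ⊕ Fin 0) k) B (w l)).2
  · intro l h2
    apply hw0 l
    apply hinj0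
    rw [map_zero]
    exact Subtype.ext h2
  · intro l
    exact hwp l
  · rintro g ⟨a, ha, b, hb, hb1, rfl⟩ hg1
    have ha1 : V.valuation a < 1 := by rwa [map_div₀, hb1, div_one] at hg1
    obtain ⟨u, hu, hus⟩ := hgenB ⟨a, hSB ha⟩ ha1
    rw [Ideal.mem_span_range_iff_exists_fun] at hus
    obtain ⟨c, hc⟩ := hus
    have hu1 : V.valuation (u : K) = 1 := (mem_primeCompl u).1 hu
    have hu0 : (u : K) ≠ 0 := by
      intro h2
      rw [h2, map_zero] at hu1
      exact zero_ne_one hu1
    have hb0 : b ≠ 0 := by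
      rintro rfl
      rw [map_zero] at hb1
      exact zero_ne_one hb1
    have hc' : ∑ l, (c l : K) * ((algebraMap (MvPolynomial (Fin n ⊕ Fin 0) k) B (w l) : B) : K) =
        (u : K) * a := by
      have h2 := congrArg (fun x : B => (x : K)) hc
      simp only [AddSubmonoidClass.coe_finsetSum, MulMemClass.coe_mul] at h2
      exact h2
    refine ⟨fun l => (c l : K) * (u : K)⁻¹ * b⁻¹, fun l => ?_, ?_⟩
    · exact (locV V S).mul_mem ((locV V S).mul_mem (hBle (c l).2) (locV_inv (hBle u.2) hu1))
        (locV_inv (le_locV _ hb) hb1)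
    · have h3 : a / b = (u : K)⁻¹ * b⁻¹ * ((u : K) * a) := by
        field_simp
      rw [h3, ← hc', Finset.mul_sum]
      exact Finset.sum_congr rfl fun l _ => by ring
  · have h2 := IsLocalization.AtPrime.ringKrullDim_eq_height (PI V B hBV) (locV V S)
    rw [h2, hhtB]
    rfl

/-- Let `z` be regular parameters, at the centre of a valuation ring `V'` with residue field `k`, of
the model `S`. At the centre of a coarser valuation ring `V` the model is regular, and the `z i`,
`i ∈ J`, that vanish there, are a part of regular parameters. -/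
theorem isPar_coarse' {V' V : ValuationSubring K} (hle : V' ≤ V) (S : Subalgebra k K)
    (hfg : S.FG) (hS : ∀ f ∈ S, f ∈ V')
    (hres : ∀ f ∈ V', ∃ c : k, V'.valuation (f - algebraMap k K c) < 1)
    {n : ℕ} {z : Fin n → K} (hz : IsPar V' (locV V' S) z)
    (J : Finset (Fin n)) (hJ : ∀ i ∈ J, V.valuation (z i) < 1) :
    ∃ (m : ℕ) (w : Fin m → K) (f : J → Fin m), Function.Injective f ∧
      (∀ i : J, w (f i) = z i) ∧ IsPar V (locV V S) w := by
  obtain ⟨b, hbS, hb1, hbc⟩ := exists_commonV V' S z hz.mem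
  have hb0 : b ≠ 0 := by
    intro h'
    rw [h', map_zero] at hb1
    exact zero_ne_one hb1
  have hVb : V.valuation b = 1 := val_eq_one_of_le hle hb1
  obtain ⟨S', hS'⟩ : ∃ S' : Subalgebra k K, S' = Algebra.adjoin k ((S : Set K) ∪ {b⁻¹}) :=
    ⟨_, rfl⟩
  have hSS' : S ≤ S' := fun x hx => hS' ▸ Algebra.subset_adjoin (Or.inl hx)
  have hinv : b⁻¹ ∈ S' := hS' ▸ Algebra.subset_adjoin (Or.inr rfl)
  have hle1 : ∀ W : ValuationSubring K, W.valuation b = 1 → S' ≤ locV W S := by
    intro W hW
    rw [hS', Algebra.adjoin_le_iff]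
    rintro x (hx | hx)
    · exact le_locV S hx
    · rw [Set.mem_singleton_iff.1 hx]
      exact locV_inv (le_locV S hbS) hW
  have hloc : ∀ W : ValuationSubring K, W.valuation b = 1 → locV W S' = locV W S := by
    intro W hW
    refine le_antisymm ?_ (locV_mono hSS')
    have := locV_mono (V := W) (hle1 W hW)
    rwa [locV_locV] at this
  have hfg' : S'.FG := by
    rw [hS', Algebra.adjoin_union, Algebra.adjoin_eq]
    exact hfg.sup (Subalgebra.fg_def.2 ⟨{b⁻¹}, Set.finite_singleton _, rfl⟩)
  have hSV' : ∀ f ∈ S', f ∈ V' := fun f hf => locV_mem hS f (hle1 V' hb1 hf)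
  have hzS : ∀ i, z i ∈ S' := by
    intro i
    have : z i = b⁻¹ * (b * z i) := by rw [inv_mul_cancel_left₀ hb0]
    rw [this]
    exact S'.mul_mem hinv (hSS' (hbc i))
  have hz' : IsPar V' (locV V' S') z := by rw [hloc V' hb1]; exact hz
  have h := isPar_coarse_aux hle S' hfg' hSV' hres hz' hzS J hJ
  rwa [hloc V hVb] at h

/-- The form with an index map defined everywhere. -/
theorem isPar_coarse {V' V : ValuationSubring K} (hle : V' ≤ V) (S : Subalgebra k K)
    (hfg : S.FG) (hS : ∀ f ∈ S, f ∈ V')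
    (hres : ∀ f ∈ V', ∃ c : k, V'.valuation (f - algebraMap k K c) < 1)
    {n : ℕ} {z : Fin n → K} (hz : IsPar V' (locV V' S) z)
    (J : Finset (Fin n)) (hJ : ∀ i ∈ J, V.valuation (z i) < 1) (hne : J.Nonempty) :
    ∃ (m : ℕ) (w : Fin m → K) (f : Fin n → Fin m), Set.InjOn f J ∧
      (∀ i ∈ J, w (f i) = z i) ∧ IsPar V (locV V S) w := by
  classical
  obtain ⟨m, w, f, hf, hwf, hw⟩ := isPar_coarse' hle S hfg hS hres hz J hJ
  obtain ⟨j, hj⟩ := hne
  refine ⟨m, w, fun i => if h : i ∈ J then f ⟨i, h⟩ else f ⟨j, hj⟩, ?_, ?_, hw⟩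
  · intro i hi i' hi' h
    have hi1 : i ∈ J := hi
    have hi2 : i' ∈ J := hi'
    simp only [hi1, hi2, dite_true] at h
    exact congrArg Subtype.val (hf h)
  · intro i hi
    simp only [hi, dite_true]
    exact hwf ⟨i, hi⟩

/-- Every ring of a model that is regular at the centre of a valuation ring with residue field `k`
is regular at the centres of the coarser valuation rings. -/
theorem exists_isPar_coarse {V' V : ValuationSubring K} (hle : V' ≤ V) (S : Subalgebra k K)
    (hfg : S.FG) (hS : ∀ f ∈ S, f ∈ V')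
    (hres : ∀ f ∈ V', ∃ c : k, V'.valuation (f - algebraMap k K c) < 1)
    {n : ℕ} {z : Fin n → K} (hz : IsPar V' (locV V' S) z) :
    ∃ (m : ℕ) (w : Fin m → K), IsPar V (locV V S) w := by
  obtain ⟨m, w, -, -, -, hw⟩ := isPar_coarse' hle S hfg hS hres hz ∅ (by simp)
  exact ⟨m, w, hw⟩

end Main

end Pool.Agent.ALLF

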