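import Mathlib

/-!
# Extending a part of a regular system of parameters
-/

set_option autoImplicit false

namespace Pool.Agent.ALLF

open IsLocalRing

section Gen

variable {R : Type*} [CommRing R] [IsDomain R] (p : Ideal R) [p.IsPrime]

/-- The class of an element of `p` in the cotangent space of the localization. -/
noncomputable def cot (x : p) : CotangentSpace (Localization.AtPrime p) :=
  (maximalIdeal (Localization.AtPrime p)).toCotangent
    ⟨algebraMap R (Localization.AtPrime p) x,
      (IsLocalization.AtPrime.to_map_mem_maximal_iff (Localization.AtPrime p) p _).2 x.2⟩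

omit [IsDomain R] in
theorem span_cot :
    (⊤ : Submodule (ResidueField (Localization.AtPrime p))
      (CotangentSpace (Localization.AtPrime p))) ≤ Submodule.span _ (Set.range (cot p)) := by
  intro c _
  obtain ⟨⟨y, hy⟩, rfl⟩ := Ideal.toCotangent_surjective _ c
  obtain ⟨a, s, rfl⟩ := IsLocalization.exists_mk'_eq p.primeCompl y
  have ha : a ∈ p := by
    have h1 : algebraMap R (Localization.AtPrime p) a ∈
        maximalIdeal (Localization.AtPrime p) := by
      rw [← IsLocalization.mk'_spec (Localization.AtPrime p) a s]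
      exact Ideal.mul_mem_right _ _ hy
    exact (IsLocalization.AtPrime.to_map_mem_maximal_iff (Localization.AtPrime p) p _).1 h1
  have h2 : (maximalIdeal (Localization.AtPrime p)).toCotangent
      ⟨IsLocalization.mk' (Localization.AtPrime p) a s, hy⟩ =
      (algebraMap (Localization.AtPrime p) (ResidueField (Localization.AtPrime p))
        (IsLocalization.mk' (Localization.AtPrime p) 1 s)) • cot p ⟨a, ha⟩ := by
    rw [algebraMap_smul, cot, ← map_smul]
    congr 1
    apply Subtype.ext
    change IsLocalization.mk' (Localization.AtPrime p) a s =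
      IsLocalization.mk' (Localization.AtPrime p) 1 s * algebraMap R (Localization.AtPrime p) a
    rw [← IsLocalization.mk'_one (M := p.primeCompl) (Localization.AtPrime p) a,
      ← IsLocalization.mk'_mul, one_mul, mul_one]
  rw [h2]
  exact Submodule.smul_mem _ _ (Submodule.subset_span ⟨_, rfl⟩)

/-- Independence of cotangent vectors in terms of the ring. -/
theorem linInd_cot {ι : Type*} [Fintype ι] (v : ι → p)
    (hind : ∀ (c : ι → R) (t : R), t ∉ p → t * ∑ i, c i * (v i : R) ∈ p ^ 2 → ∀ i, c i ∈ p) :
    LinearIndependent (ResidueField (Localization.AtPrime p)) fun i => cot p (v i) := by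
  classical
  rw [Fintype.linearIndependent_iff]
  intro g hg
  choose A hA using fun i => IsLocalRing.residue_surjective (g i)
  obtain ⟨b, hb⟩ := IsLocalization.exist_integer_multiples_of_finite p.primeCompl A
  choose c hc using hb
  -- the sum is in the square of the maximal ideal
  have h1 : ∑ i, A i * algebraMap R (Localization.AtPrime p) (v i : R) ∈
      maximalIdeal (Localization.AtPrime p) ^ 2 := by
    have hm : ∀ i, algebraMap R (Localization.AtPrime p) (v i : R) ∈
        maximalIdeal (Localization.AtPrime p) := fun i =>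
      (IsLocalization.AtPrime.to_map_mem_maximal_iff (Localization.AtPrime p) p _).2 (v i).2
    have h2 : (maximalIdeal (Localization.AtPrime p)).toCotangent
        (∑ i, A i • (⟨algebraMap R (Localization.AtPrime p) (v i : R), hm i⟩ :
          maximalIdeal (Localization.AtPrime p))) = 0 := by
      rw [map_sum, ← hg]
      refine Finset.sum_congr rfl fun i _ => ?_
      rw [map_smul, ← hA i]
      exact (algebraMap_smul (ResidueField (Localization.AtPrime p)) (A i) _).symm
    rw [Ideal.toCotangent_eq_zero] at h2
    have h3 : ((∑ i, A i • (⟨algebraMap R (Localization.AtPrime p) (v i : R), hm i⟩ :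
          maximalIdeal (Localization.AtPrime p)) : maximalIdeal (Localization.AtPrime p)) :
          Localization.AtPrime p) =
        ∑ i, A i * algebraMap R (Localization.AtPrime p) (v i : R) := by
      rw [Submodule.coe_sum]
      rfl
    rwa [h3] at h2
  have h4 : algebraMap R (Localization.AtPrime p) (∑ i, c i * (v i : R)) ∈
      Ideal.map (algebraMap R (Localization.AtPrime p)) (p ^ 2) := by
    rw [Ideal.map_pow, Localization.AtPrime.map_eq_maximalIdeal]
    have h5 : algebraMap R (Localization.AtPrime p) (∑ i, c i * (v i : R)) =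
        algebraMap R (Localization.AtPrime p) (b : R) *
          ∑ i, A i * algebraMap R (Localization.AtPrime p) (v i : R) := by
      rw [map_sum, Finset.mul_sum]
      refine Finset.sum_congr rfl fun i _ => ?_
      rw [map_mul, hc i, Algebra.smul_def, mul_assoc]
    rw [h5]
    exact Ideal.mul_mem_left _ _ h1
  obtain ⟨⟨x, t⟩, hxt⟩ := (IsLocalization.mem_map_algebraMap_iff p.primeCompl _).1 h4
  have hinj : Function.Injective (algebraMap R (Localization.AtPrime p)) :=
    IsLocalization.injective (Localization.AtPrime p) p.primeCompl_le_nonZeroDivisors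
  rw [← map_mul] at hxt
  have h6 := hinj hxt
  have h7 := hind c (t : R) t.2 (by rw [mul_comm]; change _ * (t : R) ∈ _; rw [h6]; exact x.2)
  intro i
  rw [← hA i]
  rw [IsLocalRing.residue_eq_zero_iff]
  have h8 : algebraMap R (Localization.AtPrime p) (b : R) * A i ∈
      maximalIdeal (Localization.AtPrime p) := by
    rw [← Algebra.smul_def, ← hc i]
    exact (IsLocalization.AtPrime.to_map_mem_maximal_iff (Localization.AtPrime p) p _).2 (h7 i)
  rcases (IsLocalRing.maximalIdeal.isMaximal _).isPrime.mem_or_mem h8 with h9 | h9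
  · exact absurd ((IsLocalization.AtPrime.to_map_mem_maximal_iff (Localization.AtPrime p) p _).1 h9)
      b.2
  · exact h9

/-- A part of a regular system of parameters extends to a regular system of parameters. -/
theorem exists_params [IsNoetherianRing R] (hreg : IsRegularLocalRing (Localization.AtPrime p))
    {ι : Type*} [Fintype ι] (v : ι → R) (hv : ∀ i, v i ∈ p)
    (hind : ∀ (c : ι → R) (t : R), t ∉ p → t * ∑ i, c i * v i ∈ p ^ 2 → ∀ i, c i ∈ p) :
    ∃ (m : ℕ) (w : Fin m → R) (f : ι → Fin m), Function.Injective f ∧ (∀ i, w (f i) = v i) ∧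
      (∀ l, w l ∈ p) ∧ (∀ l, w l ≠ 0) ∧
      (∀ s ∈ p, ∃ t, t ∉ p ∧ t * s ∈ Ideal.span (Set.range w)) ∧ p.height = m := by
  classical
  have hli := linInd_cot p (fun i => (⟨v i, hv i⟩ : p)) hind
  have hs : LinearIndepOn (ResidueField (Localization.AtPrime p)) id
      (Set.range fun i => cot p ⟨v i, hv i⟩) := hli.linearIndepOn_id
  have hst : (Set.range fun i => cot p ⟨v i, hv i⟩) ⊆ Set.range (cot p) := by
    rintro _ ⟨i, rfl⟩
    exact ⟨_, rfl⟩
  let b := Module.Basis.extendLe hs hst (span_cot p)
  let e : hs.extend hst ≃ Fin (Module.finrank (ResidueField (Localization.AtPrime p))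
      (CotangentSpace (Localization.AtPrime p))) :=
    b.indexEquiv (Module.finBasis _ _)
  have hmem : ∀ y : hs.extend hst, (y : CotangentSpace (Localization.AtPrime p)) ∈
      Set.range (cot p) := fun y => hs.extend_subset hst y.2
  have hchoose : ∀ y : hs.extend hst, ∃ x : p, cot p x = y ∧
      ∀ i, cot p ⟨v i, hv i⟩ = y → x = ⟨v i, hv i⟩ := by
    intro y
    by_cases h : ∃ i, cot p ⟨v i, hv i⟩ = y
    · obtain ⟨i, hi⟩ := h
      refine ⟨⟨v i, hv i⟩, hi, fun j hj => ?_⟩
      have : i = j := hli.injective (hi.trans hj.symm)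
      rw [this]
    · obtain ⟨x, hx⟩ := hmem y
      exact ⟨x, hx, fun i hi => absurd ⟨i, hi⟩ h⟩
  choose x hx1 hx2 using hchoose
  have hsub : ∀ i, cot p ⟨v i, hv i⟩ ∈ hs.extend hst := fun i => hs.subset_extend hst ⟨i, rfl⟩
  refine ⟨_, fun l => (x (e.symm l) : R), fun i => e ⟨cot p ⟨v i, hv i⟩, hsub i⟩, ?_, ?_, ?_, ?_,
    ?_, ?_⟩
  · intro i j hij
    exact hli.injective (congrArg Subtype.val (e.injective hij))
  · intro i
    simp only [Equiv.symm_apply_apply]
    rw [hx2 _ i rfl]
  · intro l
    exact (x (e.symm l)).2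
  · intro l h0
    have h1 : b (e.symm l) = 0 := by
      rw [Module.Basis.extendLe_apply_self, ← hx1, cot]
      rw [Ideal.toCotangent_eq_zero]
      have h0' : (x (e.symm l) : R) = 0 := h0
      change algebraMap R _ (x (e.symm l) : R) ∈ _
      rw [h0', map_zero]
      exact Ideal.zero_mem _
    exact b.ne_zero _ h1
  · intro s hs'
    -- Nakayama
    have h1 : Submodule.span (ResidueField (Localization.AtPrime p))
        ((maximalIdeal (Localization.AtPrime p)).toCotangent ''
          (Set.range fun l => (⟨algebraMap R (Localization.AtPrime p) (x (e.symm l) : R),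
            (IsLocalization.AtPrime.to_map_mem_maximal_iff (Localization.AtPrime p) p _).2
              (x (e.symm l)).2⟩ : maximalIdeal (Localization.AtPrime p)))) = ⊤ := by
      rw [eq_top_iff, ← b.span_eq, Submodule.span_le]
      rintro _ ⟨y, rfl⟩
      refine Submodule.subset_span ⟨_, ⟨e y, rfl⟩, ?_⟩
      rw [Module.Basis.extendLe_apply_self]
      simp only [Equiv.symm_apply_apply]
      exact hx1 y
    have h2 := CotangentSpace.span_image_eq_top_iff.1 h1
    have h3 : (⟨algebraMap R (Localization.AtPrime p) s,
        (IsLocalization.AtPrime.to_map_mem_maximal_iff (Localization.AtPrime p) p _).2 hs'⟩ :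
        maximalIdeal (Localization.AtPrime p)) ∈ Submodule.span (Localization.AtPrime p)
        (Set.range fun l => (⟨algebraMap R (Localization.AtPrime p) (x (e.symm l) : R),
            (IsLocalization.AtPrime.to_map_mem_maximal_iff (Localization.AtPrime p) p _).2
              (x (e.symm l)).2⟩ : maximalIdeal (Localization.AtPrime p))) := by
      rw [h2]; trivial
    have h4 := Submodule.mem_map_of_mem (f := (maximalIdeal (Localization.AtPrime p)).subtype) h3
    rw [Submodule.map_span] at h4
    have h5 : algebraMap R (Localization.AtPrime p) s ∈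
        Ideal.map (algebraMap R (Localization.AtPrime p))
          (Ideal.span (Set.range fun l => (x (e.symm l) : R))) := by
      rw [Ideal.map_span]
      refine Submodule.span_mono ?_ h4
      rintro _ ⟨_, ⟨l, rfl⟩, rfl⟩
      exact ⟨_, ⟨l, rfl⟩, rfl⟩
    obtain ⟨⟨y, t⟩, hyt⟩ := (IsLocalization.mem_map_algebraMap_iff p.primeCompl _).1 h5
    have hinj : Function.Injective (algebraMap R (Localization.AtPrime p)) :=
      IsLocalization.injective (Localization.AtPrime p) p.primeCompl_le_nonZeroDivisors
    rw [← map_mul] at hyt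
    have h6 := hinj hyt
    refine ⟨t, t.2, ?_⟩
    rw [mul_comm]
    change s * (t : R) ∈ _
    rw [h6]
    exact y.2
  · have h1 := IsLocalization.AtPrime.ringKrullDim_eq_height p (Localization.AtPrime p)
    have h2 := (IsRegularLocalRing.iff_finrank_cotangentSpace _).1 hreg
    rw [h1] at h2
    exact_mod_cast h2.symm

end Gen

section Poly

open MvPolynomial

variable {k : Type*} [Field k] {σ : Type*}

/-- Coordinates in a prime ideal of a polynomial ring are independent modulo the square. -/
theorem ind_X (p : Ideal (MvPolynomial σ k)) [p.IsPrime] {ι : Type*} [Fintype ι] (j : ι → σ)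
    (hj : Function.Injective j) (hp : ∀ i, (X (j i) : MvPolynomial σ k) ∈ p)
    (c : ι → MvPolynomial σ k) (t : MvPolynomial σ k) (ht : t ∉ p)
    (h : t * ∑ i, c i * X (j i) ∈ p ^ 2) (i : ι) : c i ∈ p := by
  classical
  have hsq : ∀ y ∈ p ^ 2, pderiv (j i) y ∈ p := by
    intro y hy
    rw [pow_two] at hy
    induction hy using Submodule.mul_induction_on' with
    | mem_mul_mem a ha b hb =>
      rw [Derivation.leibniz, smul_eq_mul, smul_eq_mul]
      exact p.add_mem (Ideal.mul_mem_right _ _ ha) (Ideal.mul_mem_right _ _ hb)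
    | add a _ b _ ha hb => rw [map_add]; exact p.add_mem ha hb
  have h1 := hsq _ h
  rw [Derivation.leibniz, smul_eq_mul, smul_eq_mul] at h1
  have h2 : (∑ l, c l * X (j l) : MvPolynomial σ k) ∈ p :=
    Ideal.sum_mem _ fun l _ => Ideal.mul_mem_left _ _ (hp l)
  have h3 : t * pderiv (j i) (∑ l, c l * X (j l) : MvPolynomial σ k) ∈ p := by
    have := p.sub_mem h1 (Ideal.mul_mem_right (pderiv (j i) t) _ h2)
    rwa [add_sub_cancel_right] at this
  have h4 : pderiv (j i) (∑ l, c l * X (j l) : MvPolynomial σ k) ∈ p :=
    (‹p.IsPrime›.mem_or_mem h3).resolve_left ht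
  rw [map_sum] at h4
  have h5 : ∀ l, pderiv (j i) (c l * X (j l) : MvPolynomial σ k) =
      c l * (if l = i then 1 else 0) + X (j l) * pderiv (j i) (c l) := by
    intro l
    rw [Derivation.leibniz, smul_eq_mul, smul_eq_mul]
    congr 2
    by_cases hl : l = i
    · rw [if_pos hl, hl, pderiv_X_self]
    · rw [if_neg hl, pderiv_X_of_ne fun h => hl (hj h)]
  simp only [h5, Finset.sum_add_distrib] at h4
  have h6 : (∑ l, X (j l) * pderiv (j i) (c l) : MvPolynomial σ k) ∈ p :=
    Ideal.sum_mem _ fun l _ => Ideal.mul_mem_right _ _ (hp l)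
  have h7 := p.sub_mem h4 h6
  rw [add_sub_cancel_right] at h7
  simpa using h7

theorem poly_params [Finite σ] (p : Ideal (MvPolynomial σ k)) [p.IsPrime] {ι : Type*} [Fintype ι]
    (j : ι → σ) (hj : Function.Injective j) (hp : ∀ i, (X (j i) : MvPolynomial σ k) ∈ p) :
    ∃ (m : ℕ) (w : Fin m → MvPolynomial σ k) (f : ι → Fin m), Function.Injective f ∧
      (∀ i, w (f i) = X (j i)) ∧ (∀ l, w l ∈ p) ∧ (∀ l, w l ≠ 0) ∧
      (∀ s ∈ p, ∃ t, t ∉ p ∧ t * s ∈ Ideal.span (Set.range w)) ∧ p.height = m :=
  exists_params p (IsRegularRing.isRegularLocalRing_localization p) (fun i => X (j i)) hp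
    (ind_X p j hj hp)

end Poly

end Pool.Agent.ALLF
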