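import Mathlib

/-!
# Every linearly ordered abelian group embeds in the additive group of an ordered field
-/

namespace Pool.Agent.OFE

open HahnSeries

/-- A linear order embeds in a linearly ordered abelian group. -/
theorem exists_group (I : Type*) [LinearOrder I] :
    ∃ f : I → Lex (I →₀ ℤ), StrictMono f := by
  classical
  refine ⟨fun i => toLex (Finsupp.single i (-1)), fun i j hij => ?_⟩
  refine ⟨i, fun l hl => ?_, ?_⟩
  · have h1 : l ≠ i := hl.ne
    have h2 : l ≠ j := (hl.trans hij).ne
    simp [h1.symm, h2.symm]
  · simp [hij.ne']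

/-- Every linearly ordered abelian group embeds in the additive group of a linearly ordered
field. -/
theorem exists_field (G : Type) [AddCommGroup G] [LinearOrder G] [IsOrderedAddMonoid G] :
    ∃ (F : Type) (_ : Field F) (_ : LinearOrder F) (_ : IsStrictOrderedRing F) (f : G →+ F),
      StrictMono f := by
  obtain ⟨g, hg, -⟩ := hahnEmbedding_isOrderedAddMonoid G
  obtain ⟨e, he⟩ := exists_group (FiniteArchimedeanClass G)
  let F := Lex (HahnSeries (Lex (FiniteArchimedeanClass G →₀ ℤ)) ℝ)
  let e' : FiniteArchimedeanClass G ↪o Lex (FiniteArchimedeanClass G →₀ ℤ) :=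
    OrderEmbedding.ofStrictMono e he
  refine ⟨F, inferInstance, inferInstance, inferInstance,
    ((embDomainOrderAddMonoidHom e').toAddMonoidHom.comp g.toAddMonoidHom), ?_⟩
  have h1 : StrictMono g := g.monotone'.strictMono_of_injective hg
  have h2 : StrictMono (embDomainOrderAddMonoidHom (R := ℝ) e') :=
    (embDomainOrderAddMonoidHom (R := ℝ) e').monotone'.strictMono_of_injective
      (embDomainOrderAddMonoidHom_injective e')
  exact h2.comp h1

end Pool.Agent.OFE
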