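import Pool.Agent.Lib.TAO.ExtVal
import Pool.Agent.Lib.TAO.Defs
import Pool.Agent.Lib.ALL_h96.OfVR
import Pool.Agent.Lib.ALL_h68.Refine

/-!
# The ambient field of a valuation ring with residue field `k`
-/

set_option autoImplicit false

namespace Pool.Agent.ALLF

open Polynomial Pool.Agent.TAO Pool.Agent.LU2

universe u w

section

variable {𝕂 : Type w} [Field 𝕂] [LinearOrder 𝕂] [IsStrictOrderedRing 𝕂]

/-- In a vanishing sum two different terms have the same (minimal) value. -/
theorem two_min {Ω : Type*} [Field Ω] (w : OVal 𝕂 Ω) {ι : Type*} (s : Finset ι) (f : ι → Ω)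
    (h0 : ∑ i ∈ s, f i = 0) (hne : ∃ i ∈ s, f i ≠ 0) :
    ∃ i ∈ s, ∃ j ∈ s, i ≠ j ∧ f i ≠ 0 ∧ f j ≠ 0 ∧ w (f i) = w (f j) := by
  classical
  set s' := s.filter fun i => f i ≠ 0 with hs'
  have hsum : ∑ i ∈ s', f i = 0 := by
    rw [hs', Finset.sum_filter_ne_zero]; exact h0
  have hne' : s'.Nonempty := by
    obtain ⟨i, hi, hi0⟩ := hne
    exact ⟨i, by rw [hs', Finset.mem_filter]; exact ⟨hi, hi0⟩⟩
  obtain ⟨i, hi, hmin⟩ := Finset.exists_min_image s' (fun i => w (f i)) hne'
  have hi' := hi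
  rw [hs', Finset.mem_filter] at hi'
  rw [← Finset.add_sum_erase s' f hi] at hsum
  have hg : ∑ j ∈ s'.erase i, f j = -f i := (neg_eq_of_add_eq_zero_right hsum).symm
  have hg0 : ∑ j ∈ s'.erase i, f j ≠ 0 := by rw [hg]; exact neg_ne_zero.mpr hi'.2
  have hne2 : (s'.erase i).Nonempty := by
    by_contra hcon
    rw [Finset.not_nonempty_iff_eq_empty] at hcon
    rw [hcon] at hg0
    exact hg0 Finset.sum_empty
  obtain ⟨j, hj, hminj⟩ := Finset.exists_min_image (s'.erase i) (fun i => w (f i)) hne2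
  have hge : w.Ge (w (f j)) (∑ j ∈ s'.erase i, f j) :=
    OVal.Ge.sum _ _ fun l hl => OVal.Ge.of_le (hminj l hl)
  have h1 := hge hg0
  rw [hg, w.map_neg _ hi'.2] at h1
  have hj1 := Finset.mem_of_mem_erase hj
  have hj2 := hj1
  rw [hs', Finset.mem_filter] at hj2
  exact ⟨i, hi'.1, j, hj2.1, (Finset.ne_of_mem_erase hj).symm, hi'.2, hj2.2,
    le_antisymm (hmin j hj1) h1⟩

/-- The values of an algebraic extension are commensurable with those of the base. -/
theorem val_mem_span {K Ω : Type u} [Field K] [Field Ω] [Algebra K Ω]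
    [Algebra.IsAlgebraic K Ω] (v : OVal 𝕂 K) (w : OVal 𝕂 Ω)
    (hw : ∀ g : K, g ≠ 0 → w (algebraMap K Ω g) = v g) (V : Submodule ℚ 𝕂)
    (hV : ∀ g : K, g ≠ 0 → v g ∈ V) (g : Ω) (hg : g ≠ 0) : w g ∈ V := by
  obtain ⟨P, hP, hPg⟩ := Algebra.IsAlgebraic.isAlgebraic (R := K) g
  rw [aeval_def, eval₂_eq_sum, sum_def] at hPg
  have hne : ∃ i ∈ P.support, algebraMap K Ω (P.coeff i) * g ^ i ≠ 0 := by
    obtain ⟨i, hi⟩ := (Polynomial.nonempty_support_iff).mpr hP
    refine ⟨i, hi, mul_ne_zero ?_ (pow_ne_zero _ hg)⟩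
    rw [_root_.map_ne_zero]
    exact mem_support_iff.mp hi
  obtain ⟨i, hi, j, hj, hij, hfi, hfj, heq⟩ := two_min w _ _ hPg hne
  have hai : P.coeff i ≠ 0 := mem_support_iff.mp hi
  have haj : P.coeff j ≠ 0 := mem_support_iff.mp hj
  rw [w.map_mul (left_ne_zero_of_mul hfi) (pow_ne_zero _ hg), w.map_pow hg, hw _ hai,
    w.map_mul (left_ne_zero_of_mul hfj) (pow_ne_zero _ hg), w.map_pow hg, hw _ haj] at heq
  have hij' : ((i : 𝕂) - j) ≠ 0 := by
    intro h
    exact hij (by exact_mod_cast sub_eq_zero.mp h)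
  have h1 : w g = ((i : ℚ) - (j : ℚ))⁻¹ • (v (P.coeff j) - v (P.coeff i)) := by
    rw [Rat.smul_def]
    push_cast
    rw [eq_inv_mul_iff_mul_eq₀ hij']
    linarith
  rw [h1]
  exact V.smul_mem _ (V.sub_mem (hV _ haj) (hV _ hai))

/-- The residue field does not grow. -/
theorem residue_extO {k K Ω : Type u} [Field k] [Field K] [Field Ω] [Algebra k K] [Algebra K Ω]
    [Algebra k Ω] [IsScalarTower k K Ω] [Algebra.IsAlgebraic K Ω] [IsAlgClosed k] (v : OVal 𝕂 K)
    (htr : ∀ c : k, c ≠ 0 → v (algebraMap k K c) = 0)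
    (hresd : ∀ a : K, v.Ge 0 a → ∃ c : k, VPos v (a - algebraMap k K c)) (w : OVal 𝕂 Ω)
    (hw : ∀ g : K, g ≠ 0 → w (algebraMap K Ω g) = v g) (g : Ω) (hg : g ≠ 0) (hg0 : w g = 0) :
    ∃ c : k, c ≠ 0 ∧ VPos w (g - algebraMap k Ω c) := by
  classical
  have htriv : ∀ c : k, c ≠ 0 → w (algebraMap k Ω c) = 0 := by
    intro c hc
    rw [IsScalarTower.algebraMap_apply k K Ω, hw _ (by rwa [_root_.map_ne_zero]), htr c hc]
  have hge1 : ∀ n : ℕ, w.Ge 0 (g ^ n) := by
    intro n _
    rw [w.map_pow hg, hg0, mul_zero]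
  obtain ⟨P, hP, hPg⟩ := Algebra.IsAlgebraic.isAlgebraic (R := K) g
  have hsne := (Polynomial.nonempty_support_iff).mpr hP
  obtain ⟨i₀, hi₀, hmin⟩ := Finset.exists_min_image P.support (fun i => v (P.coeff i)) hsne
  have ha₀ : P.coeff i₀ ≠ 0 := mem_support_iff.mp hi₀
  -- the normalised coefficients
  have hres : ∀ i, ∃ c : k, VPos v ((P.coeff i₀)⁻¹ * P.coeff i - algebraMap k K c) ∧
      (i = i₀ → c = 1) ∧ (P.coeff i = 0 → c = 0) := by
    intro i
    by_cases hi : i = i₀
    · subst hi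
      refine ⟨1, ?_, fun _ => rfl, fun h => absurd h ha₀⟩
      rw [inv_mul_cancel₀ ha₀, _root_.map_one, sub_self]
      exact VPos.zero
    by_cases hi0 : P.coeff i = 0
    · refine ⟨0, ?_, fun h => absurd h hi, fun _ => rfl⟩
      rw [hi0, mul_zero, _root_.map_zero, sub_zero]
      exact VPos.zero
    · have : v.Ge 0 ((P.coeff i₀)⁻¹ * P.coeff i) := by
        intro _
        rw [v.map_mul (inv_ne_zero ha₀) hi0, v.map_inv ha₀]
        have := hmin i (mem_support_iff.mpr hi0)
        linarith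
      obtain ⟨c, hc⟩ := hresd _ this
      exact ⟨c, hc, fun h => absurd h hi, fun h => absurd h hi0⟩
  choose c hc hc1 hc0 using hres
  set p : k[X] := ∑ i ∈ P.support, C (c i) * X ^ i with hp
  have hpcoeff : p.coeff i₀ = 1 := by
    rw [hp, finsetSum_coeff]
    rw [Finset.sum_eq_single i₀]
    · rw [coeff_C_mul_X_pow, if_pos rfl, hc1 i₀ rfl]
    · intro j _ hj
      rw [coeff_C_mul_X_pow, if_neg (Ne.symm hj)]
    · intro h
      exact absurd hi₀ h
  have hp0 : p ≠ 0 := by
    intro h
    rw [h, coeff_zero] at hpcoeff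
    exact zero_ne_one hpcoeff
  -- the value of `p` at `g` is positive
  have hpg : VPos w (aeval g p) := by
    have h1 : aeval g p = ∑ i ∈ P.support, algebraMap k Ω (c i) * g ^ i := by
      rw [hp, map_sum]
      refine Finset.sum_congr rfl fun i _ => ?_
      rw [_root_.map_mul, aeval_C, _root_.map_pow, aeval_X]
    have h2 : ∑ i ∈ P.support, algebraMap K Ω ((P.coeff i₀)⁻¹ * P.coeff i) * g ^ i = 0 := by
      rw [aeval_def, eval₂_eq_sum, sum_def] at hPg
      have : ∀ i ∈ P.support, algebraMap K Ω ((P.coeff i₀)⁻¹ * P.coeff i) * g ^ i =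
          algebraMap K Ω ((P.coeff i₀)⁻¹) * (algebraMap K Ω (P.coeff i) * g ^ i) := by
        intro i _
        rw [_root_.map_mul]; ring
      rw [Finset.sum_congr rfl this, ← Finset.mul_sum, hPg, mul_zero]
    have h3 : aeval g p = -∑ i ∈ P.support,
        algebraMap K Ω ((P.coeff i₀)⁻¹ * P.coeff i - algebraMap k K (c i)) * g ^ i := by
      rw [h1, ← sub_zero (∑ i ∈ P.support, algebraMap k Ω (c i) * g ^ i), ← h2,
        ← Finset.sum_sub_distrib, ← Finset.sum_neg_distrib]
      refine Finset.sum_congr rfl fun i _ => ?_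
      rw [_root_.map_sub, ← IsScalarTower.algebraMap_apply k K Ω]
      ring
    rw [h3]
    refine VPos.neg ?_
    have : ∀ s : Finset ℕ, VPos w (∑ i ∈ s,
        algebraMap K Ω ((P.coeff i₀)⁻¹ * P.coeff i - algebraMap k K (c i)) * g ^ i) := by
      intro s
      induction s using Finset.induction_on with
      | empty => rw [Finset.sum_empty]; exact VPos.zero
      | insert a s ha ih =>
        rw [Finset.sum_insert ha]
        refine VPos.add (VPos.mul ?_ (hge1 a)) ih
        intro hne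
        have hne' : (P.coeff i₀)⁻¹ * P.coeff a - algebraMap k K (c a) ≠ 0 := by
          intro h
          rw [h, _root_.map_zero] at hne
          exact hne rfl
        rw [hw _ hne']
        exact hc a hne'
    exact this _
  -- `p` splits
  have hsplit : p.Splits := IsAlgClosed.splits p
  have hroots : aeval g p = algebraMap k Ω p.leadingCoeff *
      (p.roots.map fun a => g - algebraMap k Ω a).prod := by
    conv_lhs => rw [hsplit.eq_prod_roots]
    rw [_root_.map_mul, aeval_C, _root_.map_multiset_prod, Multiset.map_map]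
    congr 2
    refine Multiset.map_congr rfl fun a _ => ?_
    simp
  have hlc : w.Ge 0 (algebraMap k Ω p.leadingCoeff) := by
    intro _
    rw [htriv _ (leadingCoeff_ne_zero.mpr hp0)]
  -- one factor has positive value
  have hkey : ∃ a ∈ p.roots, VPos w (g - algebraMap k Ω a) := by
    by_contra hcon
    push Not at hcon
    have hfac : ∀ a ∈ p.roots, g - algebraMap k Ω a ≠ 0 ∧ w (g - algebraMap k Ω a) = 0 := by
      intro a ha
      have h1 := hcon a ha
      unfold VPos at h1
      push Not at h1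
      refine ⟨h1.1, le_antisymm h1.2 ?_⟩
      have h2 : w.Ge 0 (g - algebraMap k Ω a) := by
        refine OVal.Ge.sub (fun _ => hg0.ge) fun h0 => ?_
        have : a ≠ 0 := by rintro rfl; simp at h0
        rw [htriv a this]
      exact h2 h1.1
    have hprod : ∀ s : Multiset k, (∀ a ∈ s, g - algebraMap k Ω a ≠ 0 ∧
        w (g - algebraMap k Ω a) = 0) →
        (s.map fun a => g - algebraMap k Ω a).prod ≠ 0 ∧
        w (s.map fun a => g - algebraMap k Ω a).prod = 0 := by
      intro s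
      induction s using Multiset.induction_on with
      | empty => intro _; simp [w.map_one]
      | cons a s ih =>
        intro hs
        have h1 := hs a (Multiset.mem_cons_self a s)
        have h2 := ih fun b hb => hs b (Multiset.mem_cons_of_mem hb)
        rw [Multiset.map_cons, Multiset.prod_cons]
        refine ⟨mul_ne_zero h1.1 h2.1, ?_⟩
        rw [w.map_mul h1.1 h2.1, h1.2, h2.2, add_zero]
    have h1 := hprod p.roots hfac
    have hlc0 : algebraMap k Ω p.leadingCoeff ≠ 0 := by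
      rw [_root_.map_ne_zero]; exact leadingCoeff_ne_zero.mpr hp0
    have h2 : aeval g p ≠ 0 := by rw [hroots]; exact mul_ne_zero hlc0 h1.1
    have h3 := hpg h2
    rw [hroots, w.map_mul hlc0 h1.1, h1.2, htriv _ (leadingCoeff_ne_zero.mpr hp0)] at h3
    simp at h3
  obtain ⟨a, -, ha⟩ := hkey
  refine ⟨a, ?_, ha⟩
  rintro rfl
  rw [_root_.map_zero, sub_zero] at ha
  have := ha hg
  rw [hg0] at this
  exact lt_irrefl _ this


end

/-- The ambient data of a nontrivial valuation ring with residue field `k`: an extension to the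
algebraic closure with values in an ordered field. -/
theorem exists_ctx {k K : Type u} [Field k] [IsAlgClosed k] [Field K] [Algebra k K] {n : ℕ}
    (htr : Algebra.trdeg k K = n) (W : ValuationSubring K) (hk : ∀ c : k, algebraMap k K c ∈ W)
    (hres : ∀ f ∈ W, ∃ c : k, W.valuation (f - algebraMap k K c) < 1) (hW : W ≠ ⊤) :
    ∃ (𝕂 : Type u) (_ : Field 𝕂) (_ : LinearOrder 𝕂) (_ : IsStrictOrderedRing 𝕂)
      (v : OVal 𝕂 K) (w : OVal 𝕂 (AlgebraicClosure K)) (r : ℕ),
      0 < r ∧ r ≤ n ∧ (∀ f : K, f ≠ 0 → w (algebraMap K (AlgebraicClosure K) f) = v f) ∧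
      (∀ f : K, f ≠ 0 → (f ∈ W ↔ 0 ≤ v f)) ∧ CtxR k w n r := by
  obtain ⟨𝕂, i1, i2, i3, v, hv, -⟩ := Pool.Agent.ALLOrd.exists_oval K W
  obtain ⟨w, hw⟩ := exists_extValO K (AlgebraicClosure K) v
  obtain ⟨r, hrn, x, hx, hspan⟩ := Pool.Agent.ALL68.exists_rank W hk htr
  have hval1 : ∀ f : K, f ≠ 0 → (W.valuation f = 1 ↔ v f = 0) := by
    intro f hf
    constructor
    · intro h
      have h1 := (hv f hf).1 ((W.valuation_le_one_iff _).1 h.le)
      have h2 := (hv f⁻¹ (inv_ne_zero hf)).1 ((W.valuation_le_one_iff _).1 (by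
        rw [map_inv₀, h, inv_one]))
      rw [v.map_inv hf] at h2
      linarith
    · intro h
      have h1 := (W.valuation_le_one_iff _).2 ((hv f hf).2 h.ge)
      have h2 := (W.valuation_le_one_iff _).2 ((hv f⁻¹ (inv_ne_zero hf)).2 (by
        rw [v.map_inv hf, h, neg_zero]))
      rw [map_inv₀] at h2
      refine le_antisymm h1 ?_
      by_contra hlt
      push Not at hlt
      have h0 : 0 < W.valuation f := by rwa [Valuation.pos_iff]
      have h3 : 1 < (W.valuation f)⁻¹ := (one_lt_inv₀ h0).2 hlt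
      exact absurd h2 (not_le.2 h3)
  have hlt1 : ∀ f : K, W.valuation f < 1 → VPos v f := by
    intro f hf h0
    have h1 := (hv f h0).1 ((W.valuation_le_one_iff _).1 hf.le)
    refine lt_of_le_of_ne h1 fun h2 => ?_
    rw [(hval1 f h0).2 h2.symm] at hf
    exact lt_irrefl _ hf
  have htriv : ∀ c : k, c ≠ 0 → v (algebraMap k K c) = 0 := by
    intro c hc
    have hc' : algebraMap k K c ≠ 0 := by rwa [_root_.map_ne_zero]
    have h1 := (hv _ hc').1 (hk c)
    have h2 := (hv _ (inv_ne_zero hc')).1 (by rw [← map_inv₀]; exact hk c⁻¹)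
    rw [v.map_inv hc'] at h2
    linarith
  have hresd : ∀ a : K, v.Ge 0 a → ∃ c : k, VPos v (a - algebraMap k K c) := by
    intro a ha
    by_cases ha0 : a = 0
    · subst ha0
      exact ⟨0, by rw [map_zero, sub_zero]; exact VPos.zero⟩
    · obtain ⟨c, hc⟩ := hres a ((hv a ha0).2 (ha ha0))
      exact ⟨c, hlt1 _ hc⟩
  have hspanv : ∀ g : K, g ≠ 0 → v g ∈ Submodule.span ℚ (Set.range fun i => v (x i)) := by
    intro g hg
    obtain ⟨m, hm, e, he⟩ := hspan g hg
    have hx0 : ∀ i, x i ≠ 0 := hx.1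
    have hprod0 : (∏ i, x i ^ e i) ≠ 0 := Finset.prod_ne_zero_iff.2 fun i _ => zpow_ne_zero _ (hx0 i)
    have h1 : W.valuation (g ^ m / ∏ i, x i ^ e i) = 1 := by
      rw [map_div₀, map_pow, he]
      exact div_self ((Valuation.ne_zero_iff _).2 hprod0)
    have h2 := (hval1 _ (div_ne_zero (pow_ne_zero m hg) hprod0)).1 h1
    rw [v.map_div (pow_ne_zero m hg) hprod0, v.map_pow hg,
      v.map_prod _ _ fun i _ => zpow_ne_zero _ (hx0 i), sub_eq_zero] at h2
    have hm' : ((m : ℕ) : 𝕂) ≠ 0 := by exact_mod_cast hm.ne'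
    have h3 : v g = ((m : ℚ)⁻¹) • ∑ i, v (x i ^ e i) := by
      rw [← h2, Rat.smul_def]
      push_cast
      rw [inv_mul_cancel_left₀ hm']
    rw [h3]
    refine Submodule.smul_mem _ _ (Submodule.sum_mem _ fun i _ => ?_)
    rw [v.map_zpow (hx0 i)]
    have h4 : ((e i : ℤ) : 𝕂) * v (x i) = ((e i : ℤ) : ℚ) • v (x i) := by
      rw [Rat.smul_def]
      push_cast
      rfl
    rw [h4]
    exact Submodule.smul_mem _ _ (Submodule.subset_span ⟨i, rfl⟩)
  have hind : LinearIndependent ℚ fun i => v (x i) := by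
    rw [← LinearIndependent.iff_fractionRing ℤ ℚ, Fintype.linearIndependent_iff]
    intro e he
    have hx0 : ∀ i, x i ≠ 0 := hx.1
    have hprod0 : (∏ i, x i ^ e i) ≠ 0 := Finset.prod_ne_zero_iff.2 fun i _ => zpow_ne_zero _ (hx0 i)
    have h1 : v (∏ i, x i ^ e i) = 0 := by
      rw [v.map_prod _ _ fun i _ => zpow_ne_zero _ (hx0 i), ← he]
      exact Finset.sum_congr rfl fun i _ => by rw [v.map_zpow (hx0 i), zsmul_eq_mul]
    have h2 := hx.2 (Finsupp.equivFunOnFinite.symm e) (by
      rw [Finsupp.prod_fintype _ _ fun i => zpow_zero _]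
      exact (hval1 _ hprod0).2 h1)
    intro i
    have := DFunLike.congr_fun h2 i
    simpa using this
  have hr : 0 < r := by
    rcases Nat.eq_zero_or_pos r with h0 | h0
    · exfalso
      subst h0
      apply hW
      ext g
      simp only [ValuationSubring.mem_top, iff_true]
      by_cases hg : g = 0
      · rw [hg]
        exact W.zero_mem
      · have h1 := hspanv g hg
        rw [Set.range_eq_empty, Submodule.span_empty, Submodule.mem_bot] at h1
        exact (hv g hg).2 h1.ge
    · exact h0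
  refine ⟨𝕂, i1, i2, i3, v, w, r, hr, hrn, hw, hv, ?_⟩
  have hXw : (fun i => w (algebraMap K (AlgebraicClosure K) (x i))) = fun i => v (x i) := by
    funext i
    exact hw _ (hx.1 i)
  exact
    { triv := fun c hc => by
        rw [IsScalarTower.algebraMap_apply k K (AlgebraicClosure K),
          hw _ (by rwa [_root_.map_ne_zero]), htriv c hc]
      res := residue_extO v htriv hresd w hw
      trdeg := by
        have h1 := trdeg_add_eq k K (A := AlgebraicClosure K)
        rw [trdeg_eq_zero (R := K) (A := AlgebraicClosure K), add_zero] at h1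
        rw [← h1, htr]
      rank := ⟨fun i => algebraMap K (AlgebraicClosure K) (x i), fun i => by simpa using hx.1 i,
        by rw [hXw]; exact hind, by
          rw [hXw]
          exact val_mem_span v w hw _ hspanv⟩ }

end Pool.Agent.ALLF
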